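import Mathlib

/-!
Mal'cev's theorem: a solvable group of linear maps of a finite dimensional vector space over an
algebraically closed field has a subgroup of finite index which is triangularizable.
-/

namespace Pool.Agent.Helper6.Solv

universe u v

open Module Module.End
open scoped commutatorElement

/-- Finite index from a map with finite range whose fibres lie in left cosets. -/
theorem finiteIndex_of_map {G α : Type*} [Group G] (K : Subgroup G) (s : Set α) (hs : s.Finite)
    (φ : G → α) (hφ : ∀ g, φ g ∈ s) (hK : ∀ g h, φ g = φ h → g⁻¹ * h ∈ K) : K.FiniteIndex := by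
  have : Finite s := hs
  let ψ : G ⧸ K → s := fun q => ⟨φ q.out, hφ _⟩
  have hψ : Function.Injective ψ := by
    intro q q' h
    have h1 : φ q.out = φ q'.out := congrArg Subtype.val h
    have h2 := hK _ _ h1
    rw [← QuotientGroup.eq, QuotientGroup.out_eq', QuotientGroup.out_eq'] at h2
    exact h2
  have : Finite (G ⧸ K) := Finite.of_injective ψ hψ
  exact Subgroup.finiteIndex_of_finite_quotient

variable {F : Type*} [Field F]

/-- Independence of the joint eigenspaces of a commuting family. -/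
theorem iSupIndep_joint {ι E : Type*} [AddCommGroup E] [Module F E] (f : ι → End F E)
    (hf : ∀ i j, Commute (f i) (f j)) :
    iSupIndep fun χ : ι → F => ⨅ i, (f i).eigenspace (χ i) := by
  have h := independent_iInf_maxGenEigenspace_of_forall_mapsTo f (fun i j φ =>
    mapsTo_maxGenEigenspace_of_comm (hf j i) φ)
  refine h.mono fun χ => iInf_mono fun i => ?_
  exact (f i).genEigenspace (χ i) |>.mono (by simp)

section
variable {G : Type*} [Group G] {E : Type*} [AddCommGroup E] [Module F E]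

/-- The stabilizer of a subspace. -/
def stab (σ : G →* End F E) (X : Submodule F E) : Subgroup G where
  carrier := {g | X.map (σ g) = X}
  one_mem' := by
    change X.map (σ 1) = X
    rw [map_one]
    exact Submodule.map_id X
  mul_mem' := by
    intro a b ha hb
    change X.map (σ (a * b)) = X
    rw [map_mul]
    change X.map ((σ a).comp (σ b)) = X
    rw [Submodule.map_comp]
    change X.map (σ a) = X at ha
    change X.map (σ b) = X at hb
    rw [hb, ha]
  inv_mem' := by
    intro a ha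
    change X.map (σ a⁻¹) = X
    change X.map (σ a) = X at ha
    conv_lhs => rw [← ha]
    rw [← Submodule.map_comp]
    change X.map (σ a⁻¹ * σ a) = X
    rw [← map_mul, inv_mul_cancel, map_one]
    exact Submodule.map_id X

theorem mem_stab {σ : G →* End F E} {X : Submodule F E} {g : G} :
    g ∈ stab σ X ↔ X.map (σ g) = X := Iff.rfl

theorem stab_mem {σ : G →* End F E} {X : Submodule F E} {g : G} (hg : g ∈ stab σ X) {x : E}
    (hx : x ∈ X) : σ g x ∈ X := by
  have h : σ g x ∈ X.map (σ g) := Submodule.mem_map_of_mem hx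
  rwa [mem_stab.1 hg] at h

/-- The joint eigenspace of a normal subgroup. -/
def wt (σ : G →* End F E) (B : Subgroup G) (χ : B → F) : Submodule F E :=
  ⨅ b : B, (σ b).eigenspace (χ b)

theorem mem_wt {σ : G →* End F E} {B : Subgroup G} {χ : B → F} {x : E} :
    x ∈ wt σ B χ ↔ ∀ b : B, σ b x = χ b • x := by
  simp [wt]

theorem map_wt (σ : G →* End F E) (B : Subgroup G) [B.Normal] (χ : B → F) (g : G) :
    ∃ χ' : B → F, (wt σ B χ).map (σ g) = wt σ B χ' := by
  have key : ∀ (χ : B → F) (g : G), (wt σ B χ).map (σ g)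
      ≤ wt σ B (fun b => χ (MulAut.conjNormal g⁻¹ b)) := by
    intro χ g
    rintro _ ⟨x, hx, rfl⟩
    rw [mem_wt]
    intro b
    have h1 := (mem_wt.1 hx) (MulAut.conjNormal g⁻¹ b)
    rw [MulAut.conjNormal_apply] at h1
    have h2 : σ (b : G) (σ g x) = σ g (σ (g⁻¹ * b * (g⁻¹)⁻¹) x) := by
      rw [← Module.End.mul_apply, ← Module.End.mul_apply, ← map_mul, ← map_mul]
      congr 2
      group
    rw [h2, h1, map_smul]
  refine ⟨fun b => χ (MulAut.conjNormal g⁻¹ b), le_antisymm (key χ g) ?_⟩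
  intro y hy
  have h1 := key (fun b => χ (MulAut.conjNormal g⁻¹ b)) g⁻¹
  have h2 : (fun b => (fun b => χ (MulAut.conjNormal g⁻¹ b)) (MulAut.conjNormal (g⁻¹)⁻¹ b)) = χ := by
    funext b
    have : MulAut.conjNormal g⁻¹ (MulAut.conjNormal (g⁻¹)⁻¹ b) = b := by
      apply Subtype.ext
      rw [MulAut.conjNormal_apply, MulAut.conjNormal_apply]
      group
    simp only [this]
  rw [h2] at h1
  refine ⟨σ g⁻¹ y, h1 (Submodule.mem_map_of_mem hy), ?_⟩
  rw [← Module.End.mul_apply, ← map_mul, mul_inv_cancel, map_one, Module.End.one_apply]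

/-- The stabilizer of a nonzero weight space of a normal subgroup acting by commuting maps has
finite index. -/
theorem stab_wt_finiteIndex [FiniteDimensional F E] (σ : G →* End F E) (B : Subgroup G) [B.Normal]
    (hB : ∀ a ∈ B, ∀ b ∈ B, Commute (σ a) (σ b)) (χ : B → F) (hχ : wt σ B χ ≠ ⊥) :
    (stab σ (wt σ B χ)).FiniteIndex := by
  have hind := iSupIndep_joint (fun b : B => σ b) (fun a b => hB _ a.2 _ b.2)
  have hfin : {χ : B → F | wt σ B χ ≠ ⊥}.Finite := WellFoundedGT.finite_ne_bot_of_iSupIndep hind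
  refine finiteIndex_of_map _ ((fun χ => wt σ B χ) '' {χ : B → F | wt σ B χ ≠ ⊥})
    (hfin.image _) (fun g => (wt σ B χ).map (σ g)) (fun g => ?_) (fun g h hgh => ?_)
  · obtain ⟨χ', h'⟩ := map_wt σ B χ g
    refine ⟨χ', ?_, h'.symm⟩
    change wt σ B χ' ≠ ⊥
    rw [← h']
    intro h0
    apply hχ
    rw [Submodule.eq_bot_iff]
    intro x hx
    have h1 : σ g x ∈ (wt σ B χ).map (σ g) := Submodule.mem_map_of_mem hx
    rw [h0, Submodule.mem_bot] at h1
    have h2 : σ g⁻¹ (σ g x) = x := by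
      rw [← Module.End.mul_apply, ← map_mul, inv_mul_cancel, map_one, Module.End.one_apply]
    rw [← h2, h1, map_zero]
  · change (wt σ B χ).map (σ (g⁻¹ * h)) = wt σ B χ
    have hgh' : (wt σ B χ).map (σ g) = (wt σ B χ).map (σ h) := hgh
    rw [map_mul]
    change (wt σ B χ).map ((σ g⁻¹).comp (σ h)) = _
    rw [Submodule.map_comp, ← hgh', ← Submodule.map_comp]
    change (wt σ B χ).map (σ g⁻¹ * σ g) = _
    rw [← map_mul, inv_mul_cancel, map_one]
    exact Submodule.map_id _

end

section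
variable {G : Type*} [Group G] {V : Type*} [AddCommGroup V] [Module F V]

/-- Every subgroup of finite index acts irreducibly. -/
def StrIrr (ρ : G →* End F V) : Prop :=
  ∀ K : Subgroup G, K.FiniteIndex → ∀ W : Submodule F V,
    (∀ k ∈ K, ∀ w ∈ W, ρ k w ∈ W) → W = ⊥ ∨ W = ⊤

/-- Common eigenvector for a commuting family. -/
theorem exists_wt [IsAlgClosed F] [FiniteDimensional F V] [Nontrivial V] (ρ : G →* End F V)
    (A : Subgroup G) (hA : ∀ a ∈ A, ∀ b ∈ A, Commute (ρ a) (ρ b)) :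
    ∃ χ : A → F, wt ρ A χ ≠ ⊥ := by
  obtain ⟨X, ⟨hX0, hXA⟩, hmin⟩ := (wellFounded_lt (α := Submodule F V)).has_min
    {X : Submodule F V | X ≠ ⊥ ∧ ∀ a ∈ A, ∀ x ∈ X, ρ a x ∈ X}
    ⟨⊤, top_ne_bot, fun _ _ _ _ => Submodule.mem_top⟩
  have hex : ∀ a : A, ∃ c : F, ∀ x ∈ X, ρ a x = c • x := by
    intro a
    have : Nontrivial X := Submodule.nontrivial_iff_ne_bot.2 hX0
    obtain ⟨c, hc⟩ := Module.End.exists_eigenvalue ((ρ a).restrict (fun x hx => hXA a a.2 x hx))
    obtain ⟨v, hv⟩ := hc.exists_hasEigenvector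
    have hv1 : ρ a (v : V) = c • (v : V) := by
      have := congrArg Subtype.val hv.apply_eq_smul
      simpa using this
    have hv0 : (v : V) ≠ 0 := fun h => hv.2 (Subtype.ext h)
    set Y : Submodule F V := X ⊓ (ρ a).eigenspace c with hY
    have hYX : Y = X := by
      by_contra hne
      refine hmin Y ⟨?_, ?_⟩ (lt_of_le_of_ne inf_le_left hne)
      · rw [Submodule.ne_bot_iff]
        exact ⟨v, ⟨v.2, by rw [SetLike.mem_coe, mem_eigenspace_iff]; exact hv1⟩, hv0⟩
      · rintro b hb x ⟨hx1, hx2⟩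
        rw [SetLike.mem_coe, mem_eigenspace_iff] at hx2
        refine ⟨hXA b hb x hx1, ?_⟩
        rw [SetLike.mem_coe, mem_eigenspace_iff, ← Module.End.mul_apply, (hA a a.2 b hb).eq,
          Module.End.mul_apply, hx2, map_smul]
    refine ⟨c, fun x hx => ?_⟩
    rw [← hYX] at hx
    exact mem_eigenspace_iff.1 hx.2
  choose χ hχ using hex
  refine ⟨χ, fun h => hX0 ?_⟩
  rw [eq_bot_iff, ← h]
  intro x hx
  rw [mem_wt]
  exact fun b => hχ b x hx

/-- Step (i): a normal subgroup acting by commuting maps acts by scalars. -/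
theorem scalar_of_comm [IsAlgClosed F] [FiniteDimensional F V] [Nontrivial V] {ρ : G →* End F V}
    (hρ : StrIrr ρ) (A : Subgroup G) [A.Normal] (hA : ∀ a ∈ A, ∀ b ∈ A, Commute (ρ a) (ρ b)) :
    ∀ a ∈ A, ∃ c : F, ρ a = c • 1 := by
  obtain ⟨χ, hχ⟩ := exists_wt ρ A hA
  have h1 := hρ _ (stab_wt_finiteIndex ρ A hA χ hχ) (wt ρ A χ) (fun k hk w hw => stab_mem hk hw)
  have h2 : wt ρ A χ = ⊤ := h1.resolve_left hχ
  intro a ha
  refine ⟨χ ⟨a, ha⟩, LinearMap.ext fun x => ?_⟩
  have h3 : x ∈ wt ρ A χ := by rw [h2]; exact Submodule.mem_top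
  exact mem_wt.1 h3 ⟨a, ha⟩

/-- Schur: an endomorphism commuting with a subgroup of finite index is a scalar. -/
theorem scalar_of_centralizer [IsAlgClosed F] [FiniteDimensional F V] [Nontrivial V]
    {ρ : G →* End F V} (hρ : StrIrr ρ) (T : End F V) (K : Subgroup G) (hK : K.FiniteIndex)
    (h : ∀ k ∈ K, Commute (ρ k) T) : ∃ c : F, T = c • 1 := by
  obtain ⟨c, hc⟩ := Module.End.exists_eigenvalue T
  obtain ⟨v, hv⟩ := hc.exists_hasEigenvector
  have h1 := hρ K hK (T.eigenspace c) (fun k hk w hw => by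
    rw [mem_eigenspace_iff] at hw ⊢
    rw [← Module.End.mul_apply, ← (h k hk).eq, Module.End.mul_apply, hw, map_smul])
  have h2 : T.eigenspace c = ⊤ := by
    refine h1.resolve_left fun h0 => hv.2 ?_
    have : v ∈ T.eigenspace c := hv.1
    rw [h0] at this
    exact this
  refine ⟨c, LinearMap.ext fun x => ?_⟩
  have h3 : x ∈ T.eigenspace c := by rw [h2]; exact Submodule.mem_top
  exact mem_eigenspace_iff.1 h3

/-- The conjugation action on endomorphisms. -/
def Ad (ρ : G →* End F V) : G →* End F (End F V) where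
  toFun g :=
    { toFun := fun T => ρ g * T * ρ g⁻¹
      map_add' := fun S T => by rw [mul_add, add_mul]
      map_smul' := fun c T => by
        rw [RingHom.id_apply, mul_smul_comm, smul_mul_assoc] }
  map_one' := by
    ext T : 1
    simp
  map_mul' g h := by
    ext T : 1
    simp only [LinearMap.coe_mk, AddHom.coe_mk, Module.End.mul_apply, mul_inv_rev, map_mul,
      mul_assoc]

theorem Ad_apply (ρ : G →* End F V) (g : G) (T : End F V) : Ad ρ g T = ρ g * T * ρ g⁻¹ := rfl

theorem Ad_rho (ρ : G →* End F V) (g h : G) : Ad ρ g (ρ h) = ρ (g * h * g⁻¹) := by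
  rw [Ad_apply, map_mul, map_mul]

theorem Ad_scalar (ρ : G →* End F V) {g : G} {c : F} (hg : ρ g = c • 1) (T : End F V) :
    Ad ρ g T = T := by
  have h1 : ρ g * ρ g⁻¹ = 1 := by rw [← map_mul, mul_inv_cancel, map_one]
  rw [hg, smul_mul_assoc, one_mul] at h1
  rw [Ad_apply, hg, smul_mul_assoc, one_mul, smul_mul_assoc, ← mul_smul_comm, h1, mul_one]

/-- Step (ii): a normal subgroup whose commutators act by scalars acts by scalars. -/
theorem scalar_of_commutator [IsAlgClosed F] [FiniteDimensional F V] [Nontrivial V]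
    {ρ : G →* End F V} (hρ : StrIrr ρ) (B : Subgroup G) [B.Normal]
    (hB : ∀ a ∈ B, ∀ b ∈ B, ∃ c : F, ρ ⁅a, b⁆ = c • 1) :
    ∀ b ∈ B, ∃ c : F, ρ b = c • 1 := by
  classical
  -- the operators `Ad b` commute
  have hcomm : ∀ a ∈ B, ∀ b ∈ B, Commute (Ad ρ a) (Ad ρ b) := by
    intro a ha b hb
    obtain ⟨c, hc⟩ := hB a ha b hb
    have h1 : a * b = ⁅a, b⁆ * (b * a) := by rw [commutatorElement_def]; group
    change Ad ρ a * Ad ρ b = Ad ρ b * Ad ρ a
    rw [← map_mul, ← map_mul, h1, map_mul]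
    ext T : 1
    rw [Module.End.mul_apply, Ad_scalar ρ hc]
  -- the abelian normal subgroup
  set A : Subgroup G :=
    { carrier := {a | a ∈ B ∧ ∀ b ∈ B, Commute (ρ a) (ρ b)}
      one_mem' := ⟨B.one_mem, fun b _ => by rw [map_one]; exact Commute.one_left _⟩
      mul_mem' := fun {x y} hx hy => ⟨B.mul_mem hx.1 hy.1, fun b hb => by
        rw [map_mul]; exact (hx.2 b hb).mul_left (hy.2 b hb)⟩
      inv_mem' := fun {x} hx => ⟨B.inv_mem hx.1, fun b hb => by
        have h1 := (hx.2 b hb).eq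
        have h2 : ρ x⁻¹ * ρ x = 1 := by rw [← map_mul, inv_mul_cancel, map_one]
        have h3 : ρ x * ρ x⁻¹ = 1 := by rw [← map_mul, mul_inv_cancel, map_one]
        change ρ x⁻¹ * ρ b = ρ b * ρ x⁻¹
        calc ρ x⁻¹ * ρ b = ρ x⁻¹ * ρ b * (ρ x * ρ x⁻¹) := by rw [h3, mul_one]
          _ = ρ x⁻¹ * (ρ b * ρ x) * ρ x⁻¹ := by simp only [mul_assoc]
          _ = ρ x⁻¹ * (ρ x * ρ b) * ρ x⁻¹ := by rw [h1]
          _ = (ρ x⁻¹ * ρ x) * ρ b * ρ x⁻¹ := by simp only [mul_assoc]
          _ = ρ b * ρ x⁻¹ := by rw [h2, one_mul]⟩ } with hAdef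
  have hAmem : ∀ a, a ∈ A ↔ a ∈ B ∧ ∀ b ∈ B, Commute (ρ a) (ρ b) := fun a => Iff.rfl
  have hAn : A.Normal := by
    constructor
    intro a ha g
    rw [hAmem] at ha ⊢
    refine ⟨Subgroup.Normal.conj_mem inferInstance a ha.1 g, fun b hb => ?_⟩
    have hb' : g⁻¹ * b * (g⁻¹)⁻¹ ∈ B := Subgroup.Normal.conj_mem inferInstance b hb g⁻¹
    have h1 := (ha.2 _ hb').eq
    change ρ (g * a * g⁻¹) * ρ b = ρ b * ρ (g * a * g⁻¹)
    rw [← map_mul, ← map_mul] at h1 ⊢
    have e1 : g * a * g⁻¹ * b = g * (a * (g⁻¹ * b * (g⁻¹)⁻¹)) * g⁻¹ := by group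
    have e2 : b * (g * a * g⁻¹) = g * ((g⁻¹ * b * (g⁻¹)⁻¹) * a) * g⁻¹ := by group
    rw [e1, e2, map_mul, map_mul, h1, ← map_mul, ← map_mul]
  have hAs : ∀ a ∈ A, ∃ c : F, ρ a = c • 1 :=
    scalar_of_comm hρ A fun a ha b hb => ha.2 b ((hAmem b).1 hb).1
  intro b hb
  -- the weight of `ρ b`
  have hwt : ∃ χ : B → F, ρ b ∈ wt (Ad ρ) B χ := by
    have : ∀ a : B, ∃ c : F, Ad ρ a (ρ b) = c • ρ b := by
      intro a
      obtain ⟨c, hc⟩ := hB a a.2 b hb
      refine ⟨c, ?_⟩
      have h1 : (a : G) * b * (a : G)⁻¹ = ⁅(a : G), b⁆ * b := by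
        rw [commutatorElement_def]; group
      rw [Ad_rho, h1, map_mul, hc, smul_mul_assoc, one_mul]
    choose χ hχ using this
    exact ⟨χ, mem_wt.2 hχ⟩
  obtain ⟨χ, hχ⟩ := hwt
  have hb0 : ρ b ≠ 0 := by
    intro h0
    have h1 : ρ b * ρ b⁻¹ = 1 := by rw [← map_mul, mul_inv_cancel, map_one]
    rw [h0, zero_mul] at h1
    exact zero_ne_one h1
  have hne : wt (Ad ρ) B χ ≠ ⊥ := by
    rw [Submodule.ne_bot_iff]
    exact ⟨ρ b, hχ, hb0⟩
  set K := stab (Ad ρ) (wt (Ad ρ) B χ) with hK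
  have hKf : K.FiniteIndex := stab_wt_finiteIndex (Ad ρ) B hcomm χ hne
  have hcK : ∀ k ∈ K, ∃ c : F, ρ (k * b * k⁻¹) = c • ρ b ∧ c ^ finrank F V = 1 := by
    intro k hk
    have h1 : ρ (k * b * k⁻¹) ∈ wt (Ad ρ) B χ := by
      rw [← Ad_rho]
      exact stab_mem hk hχ
    have h2 : k * b * k⁻¹ * b⁻¹ ∈ A := by
      rw [hAmem]
      refine ⟨B.mul_mem (Subgroup.Normal.conj_mem inferInstance b hb k) (B.inv_mem hb),
        fun a ha => ?_⟩
      have h3 : Ad ρ a (ρ (k * b * k⁻¹)) = χ ⟨a, ha⟩ • ρ (k * b * k⁻¹) := mem_wt.1 h1 ⟨a, ha⟩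
      have h4 : Ad ρ a (ρ b) = χ ⟨a, ha⟩ • ρ b := mem_wt.1 hχ ⟨a, ha⟩
      rw [Ad_apply] at h3 h4
      have ea : ρ a⁻¹ * ρ a = 1 := by rw [← map_mul, inv_mul_cancel, map_one]
      have eb : ρ b * ρ b⁻¹ = 1 := by rw [← map_mul, mul_inv_cancel, map_one]
      have eb' : ρ b⁻¹ * ρ b = 1 := by rw [← map_mul, inv_mul_cancel, map_one]
      have h5 : ρ a * ρ (k * b * k⁻¹) = χ ⟨a, ha⟩ • (ρ (k * b * k⁻¹) * ρ a) := by
        rw [← smul_mul_assoc, ← h3, mul_assoc _ (ρ a⁻¹) (ρ a), ea, mul_one]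
      have h6 : ρ a * ρ b = χ ⟨a, ha⟩ • (ρ b * ρ a) := by
        rw [← smul_mul_assoc, ← h4, mul_assoc _ (ρ a⁻¹) (ρ a), ea, mul_one]
      have h7 : ρ b⁻¹ * ρ a = χ ⟨a, ha⟩ • (ρ a * ρ b⁻¹) := by
        calc ρ b⁻¹ * ρ a = ρ b⁻¹ * ρ a * (ρ b * ρ b⁻¹) := by rw [eb, mul_one]
          _ = ρ b⁻¹ * (ρ a * ρ b) * ρ b⁻¹ := by simp only [mul_assoc]
          _ = χ ⟨a, ha⟩ • ((ρ b⁻¹ * ρ b) * ρ a * ρ b⁻¹) := by
            rw [h6, mul_smul_comm, smul_mul_assoc]
            simp only [mul_assoc]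
          _ = χ ⟨a, ha⟩ • (ρ a * ρ b⁻¹) := by rw [eb', one_mul]
      change ρ (k * b * k⁻¹ * b⁻¹) * ρ a = ρ a * ρ (k * b * k⁻¹ * b⁻¹)
      rw [map_mul ρ (k * b * k⁻¹) b⁻¹, mul_assoc (ρ (k * b * k⁻¹)), h7, ← mul_assoc (ρ a), h5,
        mul_smul_comm, smul_mul_assoc, ← mul_assoc (ρ (k * b * k⁻¹))]
    obtain ⟨c, hc⟩ := hAs _ h2
    have h3 : ρ (k * b * k⁻¹) = c • ρ b := by
      have e : k * b * k⁻¹ = k * b * k⁻¹ * b⁻¹ * b := by group
      rw [e, map_mul, hc, smul_mul_assoc, one_mul]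
    refine ⟨c, h3, ?_⟩
    have h4 := congrArg LinearMap.det h3
    rw [LinearMap.det_smul, map_mul, map_mul, map_mul, map_mul] at h4
    have h5 : LinearMap.det (ρ k) * LinearMap.det (ρ k⁻¹) = 1 := by
      rw [← map_mul, ← map_mul, mul_inv_cancel, map_one, map_one]
    have h6 : LinearMap.det (ρ b) ≠ 0 := by
      intro h0
      have h7 : LinearMap.det (ρ b) * LinearMap.det (ρ b⁻¹) = 1 := by
        rw [← map_mul, ← map_mul, mul_inv_cancel, map_one, map_one]
      rw [h0, zero_mul] at h7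
      exact zero_ne_one h7
    have h7 : LinearMap.det (ρ k) * LinearMap.det (ρ b) * LinearMap.det (ρ k⁻¹)
        = LinearMap.det (ρ b) := by
      rw [mul_right_comm, h5, one_mul]
    rw [h7] at h4
    have h8 : (c ^ finrank F V - 1) * LinearMap.det (ρ b) = 0 := by
      rw [sub_mul, one_mul, ← h4, sub_self]
    rcases mul_eq_zero.1 h8 with h9 | h9
    · exact sub_eq_zero.1 h9
    · exact absurd h9 h6
  choose c hc hcn using fun k : K => hcK k k.2
  set D : Subgroup G :=
    { carrier := {g | ρ g * ρ b = ρ b * ρ g}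
      one_mem' := by simp
      mul_mem' := fun {x y} hx hy => by
        change ρ (x * y) * ρ b = ρ b * ρ (x * y)
        change ρ x * ρ b = ρ b * ρ x at hx
        change ρ y * ρ b = ρ b * ρ y at hy
        rw [map_mul, mul_assoc, hy, ← mul_assoc, hx, mul_assoc]
      inv_mem' := fun {x} hx => by
        change ρ x⁻¹ * ρ b = ρ b * ρ x⁻¹
        change ρ x * ρ b = ρ b * ρ x at hx
        have h2 : ρ x⁻¹ * ρ x = 1 := by rw [← map_mul, inv_mul_cancel, map_one]
        have h3 : ρ x * ρ x⁻¹ = 1 := by rw [← map_mul, mul_inv_cancel, map_one]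
        calc ρ x⁻¹ * ρ b = ρ x⁻¹ * ρ b * (ρ x * ρ x⁻¹) := by rw [h3, mul_one]
          _ = ρ x⁻¹ * (ρ b * ρ x) * ρ x⁻¹ := by simp only [mul_assoc]
          _ = ρ x⁻¹ * (ρ x * ρ b) * ρ x⁻¹ := by rw [hx]
          _ = (ρ x⁻¹ * ρ x) * ρ b * ρ x⁻¹ := by simp only [mul_assoc]
          _ = ρ b * ρ x⁻¹ := by rw [h2, one_mul] } with hD
  have hDmem : ∀ g, g ∈ D ↔ ρ g * ρ b = ρ b * ρ g := fun g => Iff.rfl
  have hmulK : ∀ k l : K, ρ ((k : G)⁻¹ * l) ∈ ({T | T * ρ b = ρ b * T} : Set (End F V)) ∨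
      c k ≠ c l := by
    intro k l
    by_cases hkl : c k = c l
    · left
      change ρ ((k : G)⁻¹ * l) * ρ b = ρ b * ρ ((k : G)⁻¹ * l)
      have h1 := hc k
      have h2 := hc l
      rw [hkl, ← h2, map_mul, map_mul, map_mul, map_mul] at h1
      have e1 : ρ (k : G)⁻¹ * ρ k = 1 := by rw [← map_mul, inv_mul_cancel, map_one]
      have e2 : ρ (l : G)⁻¹ * ρ l = 1 := by rw [← map_mul, inv_mul_cancel, map_one]
      rw [map_mul]
      calc ρ (k : G)⁻¹ * ρ l * ρ b = ρ (k : G)⁻¹ * (ρ l * ρ b * ρ (l : G)⁻¹) * ρ l := by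
            simp only [mul_assoc]
            rw [e2, mul_one]
        _ = (ρ (k : G)⁻¹ * ρ k) * ρ b * ρ (k : G)⁻¹ * ρ l := by
            rw [← h1]
            simp only [mul_assoc]
        _ = ρ b * (ρ (k : G)⁻¹ * ρ l) := by
            rw [e1, one_mul, mul_assoc]
    · exact Or.inr hkl
  have hfin : {x : F | x ^ finrank F V = 1}.Finite := by
    have hpos : 0 < finrank F V := finrank_pos
    have : {x : F | x ^ finrank F V = 1} ⊆ ((Polynomial.nthRoots (finrank F V) (1 : F)).toFinset) := by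
      intro x hx
      rw [Finset.mem_coe, Multiset.mem_toFinset, Polynomial.mem_nthRoots hpos]
      exact hx
    exact (Finset.finite_toSet _).subset this
  have hrel : (D.subgroupOf K).FiniteIndex :=
    finiteIndex_of_map (D.subgroupOf K) _ hfin c hcn fun k l hkl => by
      rw [Subgroup.mem_subgroupOf, hDmem]
      exact (hmulK k l).resolve_right (fun h => h hkl)
  have hDK : (D ⊓ K).FiniteIndex := by
    constructor
    rw [← Subgroup.relIndex_mul_index (inf_le_right : D ⊓ K ≤ K), Subgroup.inf_relIndex_right]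
    exact mul_ne_zero hrel.index_ne_zero hKf.index_ne_zero
  exact scalar_of_centralizer hρ (ρ b) (D ⊓ K) hDK (fun k hk => (hDmem k).1 hk.1)

/-- A strongly irreducible representation of a solvable group acts by scalars. -/
theorem scalar_of_solvable [IsAlgClosed F] [FiniteDimensional F V] [Nontrivial V]
    {ρ : G →* End F V} (hρ : StrIrr ρ) [hG : Group.IsSolvable G] (g : G) : ∃ c : F, ρ g = c • 1 := by
  obtain ⟨n, hn⟩ := hG.solvable
  have key : ∀ k, (∀ g ∈ derivedSeries G k, ∃ c : F, ρ g = c • 1) → ∀ g, ∃ c : F, ρ g = c • 1 := by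
    intro k
    induction k with
    | zero =>
      intro h g
      exact h g (by rw [derivedSeries_zero]; trivial)
    | succ k ih =>
      intro h
      apply ih
      have := derivedSeries_normal G k
      refine scalar_of_commutator hρ (derivedSeries G k) fun a ha b hb => h _ ?_
      rw [derivedSeries_succ]
      exact Subgroup.commutator_mem_commutator ha hb
  refine key n (fun g hg => ⟨1, ?_⟩) g
  rw [hn, Subgroup.mem_bot] at hg
  rw [hg, map_one, one_smul]

end

/-- Mal'cev: a solvable group has a common eigenvector for a subgroup of finite index. -/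
theorem exists_eigenvector [IsAlgClosed F] (n : ℕ) : ∀ (G : Type u) [Group G] [Group.IsSolvable G]
    (V : Type v) [AddCommGroup V] [Module F V] [FiniteDimensional F V] [Nontrivial V]
    (ρ : G →* End F V), finrank F V = n →
    ∃ H : Subgroup G, H.FiniteIndex ∧ ∃ v : V, v ≠ 0 ∧ ∀ h ∈ H, ∃ c : F, ρ h v = c • v := by
  induction n using Nat.strong_induction_on with
  | _ n ih =>
    intro G _ _ V _ _ _ _ ρ hn
    by_cases hirr : StrIrr ρ
    · obtain ⟨v, hv⟩ := exists_ne (0 : V)
      refine ⟨⊤, inferInstance, v, hv, fun h _ => ?_⟩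
      obtain ⟨c, hc⟩ := scalar_of_solvable hirr h
      exact ⟨c, by rw [hc]; rfl⟩
    · unfold StrIrr at hirr
      push Not at hirr
      obtain ⟨K, hK, W, hW, hW0, hW1⟩ := hirr
      have hnt : Nontrivial W := Submodule.nontrivial_iff_ne_bot.2 hW0
      have hlt : finrank F W < n := by
        rw [← hn]
        exact Submodule.finrank_lt hW1
      let ρK : K →* End F W :=
        { toFun := fun k => (ρ k).restrict (fun w hw => hW k k.2 w hw)
          map_one' := by ext w; simp
          map_mul' := fun k l => by ext w; simp }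
      obtain ⟨H, hH, v, hv, h⟩ := ih _ hlt K W ρK rfl
      refine ⟨H.map K.subtype, ?_, v, fun h0 => hv (Subtype.ext h0), ?_⟩
      · constructor
        rw [Subgroup.index_map_subtype]
        exact mul_ne_zero hH.index_ne_zero hK.index_ne_zero
      · rintro _ ⟨k, hk, rfl⟩
        obtain ⟨c, hc⟩ := h k hk
        exact ⟨c, congrArg Subtype.val hc⟩

theorem finrank_comap_mkQ {V : Type*} [AddCommGroup V] [Module F V] [FiniteDimensional F V]
    (U : Submodule F V) (S : Submodule F (V ⧸ U)) :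
    finrank F (S.comap U.mkQ) = finrank F S + finrank F U := by
  let g : S.comap U.mkQ →ₗ[F] S := U.mkQ.restrict (fun x hx => hx)
  have h1 := g.finrank_range_add_finrank_ker
  have h2 : LinearMap.range g = ⊤ := by
    rw [LinearMap.range_eq_top]
    rintro ⟨y, hy⟩
    obtain ⟨x, rfl⟩ := U.mkQ_surjective y
    exact ⟨⟨x, hy⟩, rfl⟩
  have h3 : LinearMap.ker g = U.comap (S.comap U.mkQ).subtype := by
    ext x
    rw [LinearMap.mem_ker, Submodule.mem_comap, Submodule.subtype_apply]
    constructor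
    · intro h
      have h4 : U.mkQ (x : V) = 0 := congrArg Subtype.val h
      rwa [Submodule.mkQ_apply, Submodule.Quotient.mk_eq_zero] at h4
    · intro h
      apply Subtype.ext
      change U.mkQ (x : V) = 0
      rwa [Submodule.mkQ_apply, Submodule.Quotient.mk_eq_zero]
  have h4 : U ≤ S.comap U.mkQ := by
    intro x hx
    rw [Submodule.mem_comap, Submodule.mkQ_apply, (Submodule.Quotient.mk_eq_zero U).2 hx]
    exact S.zero_mem
  have h5 := (Submodule.comapSubtypeEquivOfLe h4).finrank_eq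
  rw [h2, h3, h5, finrank_top] at h1
  exact h1.symm

/-- Mal'cev: a solvable group has a subgroup of finite index which stabilizes a complete flag
and acts on each quotient line by a scalar. -/
theorem exists_flag [IsAlgClosed F] (n : ℕ) : ∀ (G : Type u) [Group G] [Group.IsSolvable G]
    (V : Type v) [AddCommGroup V] [Module F V] [FiniteDimensional F V]
    (ρ : G →* End F V), finrank F V = n →
    ∃ H : Subgroup G, H.FiniteIndex ∧ ∃ L : ℕ → Submodule F V, L 0 = ⊥ ∧ L n = ⊤ ∧ Monotone L ∧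
      (∀ i ≤ n, finrank F (L i) = i) ∧
      ∀ h ∈ H, ∀ i, ∃ c : F, ∀ x ∈ L (i + 1), ρ h x - c • x ∈ L i := by
  induction n with
  | zero =>
    intro G _ _ V _ _ _ ρ hn
    have : Subsingleton V := finrank_zero_iff.1 hn
    refine ⟨⊤, inferInstance, fun _ => ⊥, rfl, Subsingleton.elim _ _, fun _ _ _ => le_rfl, ?_, ?_⟩
    · intro i hi
      rw [Nat.le_zero.1 hi]
      exact finrank_bot F V
    · intro h _ i
      exact ⟨0, fun x _ => by rw [Subsingleton.elim (ρ h x - (0 : F) • x) 0]; exact Submodule.zero_mem _⟩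
  | succ n ih =>
    intro G _ _ V _ _ _ ρ hn
    have hnt : Nontrivial V := Module.nontrivial_of_finrank_pos (R := F) (by omega)
    obtain ⟨H, hH, v, hv, hev⟩ := exists_eigenvector (n + 1) G V ρ hn
    set U : Submodule F V := F ∙ v with hU
    have hUinv : ∀ h ∈ H, U ≤ U.comap (ρ h) := by
      intro h hh
      rw [hU, Submodule.span_singleton_le_iff_mem, Submodule.mem_comap]
      obtain ⟨c, hc⟩ := hev h hh
      rw [hc]
      exact Submodule.smul_mem _ _ (Submodule.mem_span_singleton_self v)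
    have hfU : finrank F U = 1 := finrank_span_singleton hv
    have hfQ : finrank F (V ⧸ U) = n := by
      have := U.finrank_quotient_add_finrank
      omega
    let ρQ : H →* End F (V ⧸ U) :=
      { toFun := fun h => U.mapQ U (ρ h) (hUinv h h.2)
        map_one' := by
          ext x
          simp
        map_mul' := fun a b => by
          ext x
          simp }
    obtain ⟨K, hK, L, hL0, hLn, hLm, hLf, hL⟩ := ih H (V ⧸ U) ρQ hfQ
    refine ⟨K.map H.subtype, ?_, fun i => Nat.rec ⊥ (fun i _ => (L i).comap U.mkQ) i, rfl, ?_, ?_,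
      ?_, ?_⟩
    · constructor
      rw [Subgroup.index_map_subtype]
      exact mul_ne_zero hK.index_ne_zero hH.index_ne_zero
    · change (L n).comap U.mkQ = ⊤
      rw [hLn, Submodule.comap_top]
    · refine monotone_nat_of_le_succ fun i => ?_
      cases i with
      | zero => exact bot_le
      | succ i => exact Submodule.comap_mono (hLm (Nat.le_succ i))
    · intro i hi
      cases i with
      | zero => exact finrank_bot F V
      | succ i =>
        change finrank F ((L i).comap U.mkQ) = i + 1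
        rw [finrank_comap_mkQ, hLf i (by omega), hfU]
    · rintro _ ⟨h, hh, rfl⟩ i
      cases i with
      | zero =>
        obtain ⟨c, hc⟩ := hev h h.2
        refine ⟨c, fun x hx => ?_⟩
        change x ∈ (L 0).comap U.mkQ at hx
        change ρ h x - c • x ∈ (⊥ : Submodule F V)
        rw [hL0, Submodule.mem_comap, Submodule.mem_bot, Submodule.mkQ_apply,
          Submodule.Quotient.mk_eq_zero, hU, Submodule.mem_span_singleton] at hx
        obtain ⟨a, rfl⟩ := hx
        rw [Submodule.mem_bot, map_smul, hc, smul_comm, sub_self]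
      | succ i =>
        obtain ⟨c, hc⟩ := hL h hh i
        refine ⟨c, fun x hx => ?_⟩
        exact hc (U.mkQ x) hx

end Pool.Agent.Helper6.Solv
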